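import Mathlib

set_option autoImplicit false

namespace Pool.Agent.Results.MP_34a2f2_co.SelfDualIntervals

/-- Property (SD): every interval `[x, y]` is self-dual. -/
def SD (L : Type) [Lattice L] : Prop :=
  ∀ x y : L, x ≤ y → Nonempty (Set.Icc x y ≃o (Set.Icc x y)ᵒᵈ)

/-- the poset is finitary: every principal order ideal is finite -/
def Finitary (L : Type) [Lattice L] : Prop := ∀ x : L, (Set.Iic x).Finite

/-- in a self-dual finite interval `[x, j]` with `j` join-irreducible there is a least element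
above `x` -/
theorem exists_atom {L : Type} [Lattice L] (h : SD L) {j x : L} (hf : (Set.Icc x j).Finite)
    (hj : SupIrred j) (hx : x < j) : ∃ a, x < a ∧ a ≤ j ∧ ∀ y, x < y → y ≤ j → a ≤ y := by
  classical
  obtain ⟨φ⟩ := h x j hx.le
  -- the greatest element below `j`
  have hc : ∃ c, x ≤ c ∧ c < j ∧ ∀ y, x ≤ y → y < j → y ≤ c := by
    have hfin : (Set.Ico x j).Finite := hf.subset Set.Ico_subset_Icc_self
    have hne : hfin.toFinset.Nonempty := ⟨x, by simpa using hx⟩
    have hlt : ∀ s : Finset L, ∀ hs : s.Nonempty, (∀ y ∈ s, y < j) → s.sup' hs id < j := by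
      intro s hs
      induction hs using Finset.Nonempty.cons_induction with
      | singleton a => intro h1; simpa using h1
      | cons a s ha hs ih =>
        intro h1
        rw [Finset.sup'_cons hs]
        have h2 := ih fun y hy => h1 y (Finset.mem_cons_of_mem hy)
        have h3 : a < j := h1 a (Finset.mem_cons_self a s)
        refine lt_of_le_of_ne (sup_le h3.le h2.le) fun h4 => ?_
        rcases hj.2 h4 with h5 | h5
        · exact h3.ne h5
        · exact h2.ne h5
    refine ⟨hfin.toFinset.sup' hne id, ?_, hlt _ hne (by simp), ?_⟩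
    · exact Finset.le_sup' id (by simpa using hx : x ∈ hfin.toFinset)
    · intro y h1 h2
      exact Finset.le_sup' id (by simpa using ⟨h1, h2⟩ : y ∈ hfin.toFinset)
  obtain ⟨c, hc1, hc2, hc3⟩ := hc
  -- its image under the duality
  let c' : Set.Icc x j := ⟨c, hc1, hc2.le⟩
  let a' : Set.Icc x j := φ.symm (OrderDual.toDual c')
  have hbot : ∀ z : Set.Icc x j, φ z = OrderDual.toDual ⟨j, hx.le, le_rfl⟩ → z = ⟨x, le_rfl, hx.le⟩ := by
    intro z hz
    apply le_antisymm
    · have h1 : φ z ≤ φ ⟨x, le_rfl, hx.le⟩ := by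
        rw [hz]
        exact OrderDual.toDual_le_toDual.2 (OrderDual.ofDual (φ ⟨x, le_rfl, hx.le⟩)).2.2
      exact φ.le_iff_le.1 h1
    · exact z.2.1
  refine ⟨a'.1, ?_, a'.2.2, ?_⟩
  · refine lt_of_le_of_ne a'.2.1 fun h1 => ?_
    -- `a' = x` would give `c = j`
    have h2 : a' ≤ φ.symm (OrderDual.toDual ⟨j, hx.le, le_rfl⟩) := by
      change a'.1 ≤ _
      rw [← h1]
      exact (φ.symm (OrderDual.toDual ⟨j, hx.le, le_rfl⟩)).2.1
    have h3 : (OrderDual.toDual c' : (Set.Icc x j)ᵒᵈ) ≤ OrderDual.toDual ⟨j, hx.le, le_rfl⟩ :=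
      φ.symm.le_iff_le.1 h2
    have h4 : j ≤ c := OrderDual.toDual_le_toDual.1 h3
    exact absurd hc2 h4.not_gt
  · intro y h1 h2
    have hy : (OrderDual.ofDual (φ ⟨y, h1.le, h2⟩)).1 ≤ c := by
      refine hc3 _ (OrderDual.ofDual (φ ⟨y, h1.le, h2⟩)).2.1 ?_
      refine lt_of_le_of_ne (OrderDual.ofDual (φ ⟨y, h1.le, h2⟩)).2.2 fun h3 => ?_
      have h4 := hbot ⟨y, h1.le, h2⟩ (by
        apply OrderDual.ofDual.injective
        exact Subtype.ext h3)
      exact h1.ne (congrArg Subtype.val h4).symm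
    have h5 : OrderDual.toDual c' ≤ φ ⟨y, h1.le, h2⟩ := by
      rw [← OrderDual.toDual_ofDual (φ ⟨y, h1.le, h2⟩)]
      exact OrderDual.toDual_le_toDual.2 hy
    have h6 : a' ≤ φ.symm (φ ⟨y, h1.le, h2⟩) := φ.symm.le_iff_le.2 h5
    rw [φ.symm_apply_apply] at h6
    exact h6

/-- below a join-irreducible element of a finitary lattice with (SD) there is a chain -/
theorem chain_of_supIrred {L : Type} [Lattice L] (h : SD L) {j : L} (hj : SupIrred j) :
    ∀ n : ℕ, ∀ x : L, x ≤ j → (Set.Icc x j).Finite → (Set.Icc x j).ncard ≤ n →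
      ∀ y z, y ∈ Set.Icc x j → z ∈ Set.Icc x j → y ≤ z ∨ z ≤ y := by
  intro n
  induction n with
  | zero =>
    intro x hx hf hn y z hy hz
    have : (Set.Icc x j) = ∅ := by
      rw [← Set.ncard_eq_zero hf]; omega
    rw [this] at hy
    exact absurd hy (Set.notMem_empty y)
  | succ n ih =>
    intro x hx hf hn y z hy hz
    rcases hy.1.eq_or_lt with rfl | hxy
    · exact Or.inl hz.1
    rcases hz.1.eq_or_lt with rfl | hxz
    · exact Or.inr hy.1
    obtain ⟨a, ha1, ha2, ha3⟩ := exists_atom h hf hj (hxy.trans_le hy.2)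
    have hsub : Set.Icc a j ⊆ Set.Icc x j := Set.Icc_subset_Icc_left ha1.le
    have hss : Set.Icc a j ⊂ Set.Icc x j := by
      refine ⟨hsub, fun h1 => ?_⟩
      have : x ∈ Set.Icc a j := h1 ⟨le_rfl, hx⟩
      exact absurd ha1 this.1.not_gt
    have hcard : (Set.Icc a j).ncard < (Set.Icc x j).ncard := Set.ncard_lt_ncard hss hf
    exact ih a ha2 (hf.subset hsub) (by omega) y z ⟨ha3 y hxy hy.2, hy.2⟩ ⟨ha3 z hxz hz.2, hz.2⟩


theorem iic_chain {L : Type} [Lattice L] (hL : Finitary L) (h : SD L) {j : L} (hj : SupIrred j)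
    {y z : L} (hy : y ≤ j) (hz : z ≤ j) : y ≤ z ∨ z ≤ y := by
  have hf : (Set.Icc (y ⊓ z) j).Finite := (hL j).subset Set.Icc_subset_Iic_self
  exact chain_of_supIrred h hj _ (y ⊓ z) (inf_le_left.trans hy) hf le_rfl y z
    ⟨inf_le_left, hy⟩ ⟨inf_le_right, hz⟩

theorem sd_dual {L : Type} [Lattice L] (h : SD L) : SD Lᵒᵈ := by
  intro x y hxy
  obtain ⟨φ⟩ := h (OrderDual.ofDual y) (OrderDual.ofDual x) hxy
  -- `Icc x y` in the dual is the dual of `Icc y x`
  let e : Set.Icc x y ≃o (Set.Icc (OrderDual.ofDual y) (OrderDual.ofDual x))ᵒᵈ :=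
    { toFun := fun t => OrderDual.toDual ⟨OrderDual.ofDual t.1, t.2.2, t.2.1⟩
      invFun := fun t => ⟨OrderDual.toDual (OrderDual.ofDual t).1,
        (OrderDual.ofDual t).2.2, (OrderDual.ofDual t).2.1⟩
      left_inv := fun t => rfl
      right_inv := fun t => rfl
      map_rel_iff' := by intro a b; exact Iff.rfl }
  exact ⟨(e.trans φ.symm).trans ((OrderIso.dualDual _).trans e.symm.dual)⟩

theorem ici_chain {L : Type} [Lattice L] [Finite L] (h : SD L) {m : L} (hm : InfIrred m)
    {y z : L} (hy : m ≤ y) (hz : m ≤ z) : y ≤ z ∨ z ≤ y := by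
  have h1 : SupIrred (OrderDual.toDual m) := hm.dual
  have hF : Finitary Lᵒᵈ := fun x => Set.toFinite _
  have h2 := iic_chain (L := Lᵒᵈ) hF (sd_dual h) h1 (y := OrderDual.toDual y)
    (z := OrderDual.toDual z) (OrderDual.toDual_le_toDual.2 hy) (OrderDual.toDual_le_toDual.2 hz)
  rcases h2 with h3 | h3
  · exact Or.inr (OrderDual.toDual_le_toDual.1 h3)
  · exact Or.inl (OrderDual.toDual_le_toDual.1 h3)

section Distrib

variable {L : Type} [DistribLattice L] [Finite L]

/-- join-irreducible elements of a finite distributive lattice above a join-irreducible element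
are comparable -/
theorem above_comparable (h : SD L) {x y z : L} (hx : SupIrred x) (hy : SupIrred y)
    (hz : SupIrred z) (hzx : z ≤ x) (hzy : z ≤ y) : x ≤ y ∨ y ≤ x := by
  classical
  have : Fintype L := Fintype.ofFinite L
  have : Nonempty L := ⟨x⟩
  let _ : OrderBot L := Fintype.toOrderBot L
  let _ : OrderTop L := Fintype.toOrderTop L
  let κ : L → L := fun x => (Finset.univ.filter fun t : L => ¬ x ≤ t).sup id
  have hprime : ∀ x : L, SupIrred x → SupPrime x := fun x hx => supPrime_iff_supIrred.2 hx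
  have hle : ∀ x t : L, ¬ x ≤ t → t ≤ κ x := fun x t ht =>
    Finset.le_sup (f := id) (by simpa using ht)
  have hκ : ∀ x : L, SupIrred x → ¬ x ≤ κ x := by
    intro x hx h1
    have h2 := (hprime x hx).le_finset_sup.1 h1
    obtain ⟨t, ht, ht2⟩ := h2
    exact (Finset.mem_filter.1 ht).2 ht2
  have hκirr : InfIrred (κ z) := by
    refine ⟨fun hmax => ?_, ?_⟩
    · have : κ z = ⊤ := by
        apply le_antisymm le_top
        exact hmax le_top
      exact hκ z hz (this ▸ le_top)
    · intro a b hab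
      by_contra hcon
      rw [not_or] at hcon
      have ha : z ≤ a := by
        by_contra h1
        exact hcon.1 (le_antisymm (hle z a h1) (hab ▸ inf_le_left))
      have hb : z ≤ b := by
        by_contra h1
        exact hcon.2 (le_antisymm (hle z b h1) (hab ▸ inf_le_right))
      exact hκ z hz (hab ▸ le_inf ha hb)
  have hzx' : κ z ≤ κ x := hle x _ fun h1 => hκ z hz (hzx.trans h1)
  have hzy' : κ z ≤ κ y := hle y _ fun h1 => hκ z hz (hzy.trans h1)
  have key : ∀ x y : L, SupIrred x → SupIrred y → κ x ≤ κ y → x ≤ y := by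
    intro x y hx hy hxy
    by_contra h1
    exact hκ y hy ((hle x y h1).trans hxy)
  rcases ici_chain h hκirr hzx' hzy' with h1 | h1
  · exact Or.inl (key x y hx hy h1)
  · exact Or.inr (key y x hy hx h1)

/-- comparability of join-irreducible elements -/
def comp (h : SD L) : Setoid {a : L // SupIrred a} where
  r x y := x ≤ y ∨ y ≤ x
  iseqv :=
    { refl := fun x => Or.inl le_rfl
      symm := fun h => h.symm
      trans := by
        intro x y z hxy hyz
        rcases hxy with h1 | h1 <;> rcases hyz with h2 | h2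
        · exact Or.inl (h1.trans h2)
        · exact iic_chain (fun _ => Set.toFinite _) h y.2 h1 h2
        · exact above_comparable h x.2 z.2 y.2 h1 h2
        · exact Or.inr (h2.trans h1) }

/-- a finite distributive lattice with (SD) is a product of finite chains -/
theorem product_of_chains [Nonempty L] (h : SD L) :
    ∃ (ι : Type) (_ : Finite ι) (K : ι → Type) (_ : ∀ i, LinearOrder (K i)),
      (∀ i, Finite (K i)) ∧ Nonempty (L ≃o ∀ i, K i) := by
  classical
  have : Fintype L := Fintype.ofFinite L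
  letI : OrderBot L := Fintype.toOrderBot L
  let P : Type := {a : L // SupIrred a}
  let S : Setoid P := comp h
  let Cc : Quotient S → Type := fun c => {p : P // (Quotient.mk S p) = c}
  have htot : ∀ c, ∀ a b : LowerSet (Cc c), a ≤ b ∨ b ≤ a := by
    intro c a b
    by_contra hcon
    rw [not_or] at hcon
    obtain ⟨h1, h2⟩ := hcon
    obtain ⟨p, hp1, hp2⟩ := Set.not_subset.1 h1
    obtain ⟨q, hq1, hq2⟩ := Set.not_subset.1 h2
    have h3 : (Quotient.mk S p.1) = Quotient.mk S q.1 := p.2.trans q.2.symm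
    have h4 : p.1 ≤ q.1 ∨ q.1 ≤ p.1 := Quotient.exact h3
    rcases h4 with h5 | h5
    · exact hp2 (b.lower (show p ≤ q from h5) hq1)
    · exact hq2 (a.lower (show q ≤ p from h5) hp1)
  let LO : ∀ c, LinearOrder (LowerSet (Cc c)) := fun c =>
    { (inferInstance : PartialOrder (LowerSet (Cc c))) with
      le_total := htot c
      toDecidableLE := Classical.decRel _
      min := fun a b => a ⊓ b
      max := fun a b => a ⊔ b
      min_def := fun a b => by
        by_cases hab : a ≤ b
        · rw [if_pos hab]; exact inf_eq_left.2 hab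
        · rw [if_neg hab]; exact inf_eq_right.2 ((htot c a b).resolve_left hab)
      max_def := fun a b => by
        by_cases hab : a ≤ b
        · rw [if_pos hab]; exact sup_eq_right.2 hab
        · rw [if_neg hab]; exact sup_eq_left.2 ((htot c a b).resolve_left hab) }
  refine ⟨Quotient S, inferInstance, fun c => LowerSet (Cc c), LO, fun c => ?_, ⟨?_⟩⟩
  · have : Finite (Cc c) := Subtype.finite
    exact Finite.of_injective (fun s : LowerSet (Cc c) => (s : Set (Cc c))) SetLike.coe_injective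
  · refine (OrderIso.lowerSetSupIrred (α := L)).trans ?_
    exact
      { toFun := fun s c => ⟨{p | p.1 ∈ s}, fun p q hqp hp => s.lower hqp hp⟩
        invFun := fun f => ⟨{p | (⟨p, rfl⟩ : Cc (Quotient.mk S p)) ∈ f (Quotient.mk S p)}, by
          intro p q hqp hp
          have hc : Quotient.mk S p = Quotient.mk S q := Quotient.sound (Or.inr hqp)
          have h6 : ∀ c (hc : Quotient.mk S p = c), (⟨p, hc⟩ : Cc c) ∈ f c := by
            intro c hc; subst hc; exact hp
          exact (f (Quotient.mk S q)).lower (show (⟨q, rfl⟩ : Cc (Quotient.mk S q)) ≤ ⟨p, hc⟩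
            from hqp) (h6 _ hc)⟩
        left_inv := by intro s; rfl
        right_inv := by
          intro f
          funext c
          ext ⟨p, hp⟩
          subst hp
          exact Iff.rfl
        map_rel_iff' := by
          intro s t
          constructor
          · intro h7 p hp
            exact h7 (Quotient.mk S p) (show (⟨p, rfl⟩ : Cc (Quotient.mk S p)) ∈ _ from hp)
          · intro h7 c p hp
            exact h7 hp }

end Distrib

/-- a finite chain is self-dual -/
theorem chain_self_dual (C : Type) [LinearOrder C] [Finite C] : Nonempty (C ≃o Cᵒᵈ) := by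
  classical
  have : Fintype C := Fintype.ofFinite C
  let e := Fintype.orderIsoFinOfCardEq C rfl
  exact ⟨e.symm.trans (Fin.revOrderIso.symm.trans e.dual)⟩

theorem sd_pi {ι : Type} (K : ι → Type) [∀ i, LinearOrder (K i)] [∀ i, Finite (K i)] :
    SD (∀ i, K i) := by
  intro x y hxy
  let e : ∀ i, Set.Icc (x i) (y i) ≃o (Set.Icc (x i) (y i))ᵒᵈ := fun i =>
    (chain_self_dual _).some
  let f : Set.Icc x y ≃o ∀ i, Set.Icc (x i) (y i) :=
    { toFun := fun t i => ⟨t.1 i, t.2.1 i, t.2.2 i⟩
      invFun := fun t => ⟨fun i => (t i).1, fun i => (t i).2.1, fun i => (t i).2.2⟩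
      left_inv := fun t => rfl
      right_inv := fun t => rfl
      map_rel_iff' := by
        intro a b
        constructor
        · intro h i; exact h i
        · intro h i; exact h i }
  let g : (∀ i, Set.Icc (x i) (y i)) ≃o (∀ i, Set.Icc (x i) (y i))ᵒᵈ :=
    { toFun := fun t => OrderDual.toDual fun i => OrderDual.ofDual (e i (t i))
      invFun := fun t => fun i => (e i).symm (OrderDual.toDual ((OrderDual.ofDual t) i))
      left_inv := fun t => by funext i; simp
      right_inv := fun t => by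
        apply OrderDual.ofDual.injective
        funext i; simp
      map_rel_iff' := by
        intro a b
        constructor
        · intro h i
          exact (e i).le_iff_le.1 (h i)
        · intro h i
          exact (e i).le_iff_le.2 (h i) }
  exact ⟨f.trans (g.trans f.symm.dual)⟩

theorem sd_of_iso {L M : Type} [Lattice L] [Lattice M] (e : L ≃o M) (h : SD M) : SD L := by
  intro x y hxy
  obtain ⟨φ⟩ := h (e x) (e y) (e.monotone hxy)
  let f : Set.Icc x y ≃o Set.Icc (e x) (e y) :=
    { toFun := fun t => ⟨e t.1, e.monotone t.2.1, e.monotone t.2.2⟩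
      invFun := fun t => ⟨e.symm t.1, by
          have := e.symm.monotone t.2.1; simpa using this, by
          have := e.symm.monotone t.2.2; simpa using this⟩
      left_inv := fun t => by apply Subtype.ext; simp
      right_inv := fun t => by apply Subtype.ext; simp
      map_rel_iff' := by intro a b; exact e.le_iff_le }
  exact ⟨f.trans (φ.trans f.symm.dual)⟩


/-! ### The finitary case -/

/-- every element is covered by only finitely many elements -/
def FiniteCovers (L : Type) [Lattice L] : Prop := ∀ x : L, {y : L | x ⋖ y}.Finite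

/-- relative version of `exists_atom` -/
theorem exists_atom_rel {L : Type} [Lattice L] (h : SD L) {j x : L} (hf : (Set.Icc x j).Finite)
    (hj : ∀ b c, x ≤ b → x ≤ c → b ⊔ c = j → b = j ∨ c = j) (hx : x < j) :
    ∃ a, x < a ∧ a ≤ j ∧ ∀ y, x < y → y ≤ j → a ≤ y := by
  classical
  obtain ⟨φ⟩ := h x j hx.le
  have hc : ∃ c, x ≤ c ∧ c < j ∧ ∀ y, x ≤ y → y < j → y ≤ c := by
    have hfin : (Set.Ico x j).Finite := hf.subset Set.Ico_subset_Icc_self
    have hne : hfin.toFinset.Nonempty := ⟨x, by simpa using hx⟩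
    have hlt : ∀ s : Finset L, ∀ hs : s.Nonempty, (∀ y ∈ s, x ≤ y ∧ y < j) →
        x ≤ s.sup' hs id ∧ s.sup' hs id < j := by
      intro s hs
      induction hs using Finset.Nonempty.cons_induction with
      | singleton a => intro h1; simpa using h1
      | cons a s ha hs ih =>
        intro h1
        rw [Finset.sup'_cons hs]
        have h2 := ih fun y hy => h1 y (Finset.mem_cons_of_mem hy)
        have h3 := h1 a (Finset.mem_cons_self a s)
        refine ⟨h3.1.trans le_sup_left, ?_⟩
        refine lt_of_le_of_ne (sup_le h3.2.le h2.2.le) fun h4 => ?_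
        rcases hj _ _ h3.1 h2.1 h4 with h5 | h5
        · exact h3.2.ne h5
        · exact h2.2.ne h5
    refine ⟨hfin.toFinset.sup' hne id, ?_, (hlt _ hne (by simp)).2, ?_⟩
    · exact Finset.le_sup' id (by simpa using hx : x ∈ hfin.toFinset)
    · intro y h1 h2
      exact Finset.le_sup' id (by simpa using ⟨h1, h2⟩ : y ∈ hfin.toFinset)
  obtain ⟨c, hc1, hc2, hc3⟩ := hc
  let c' : Set.Icc x j := ⟨c, hc1, hc2.le⟩
  let a' : Set.Icc x j := φ.symm (OrderDual.toDual c')
  have hbot : ∀ z : Set.Icc x j, φ z = OrderDual.toDual ⟨j, hx.le, le_rfl⟩ →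
      z = ⟨x, le_rfl, hx.le⟩ := by
    intro z hz
    apply le_antisymm
    · have h1 : φ z ≤ φ ⟨x, le_rfl, hx.le⟩ := by
        rw [hz]
        exact OrderDual.toDual_le_toDual.2 (OrderDual.ofDual (φ ⟨x, le_rfl, hx.le⟩)).2.2
      exact φ.le_iff_le.1 h1
    · exact z.2.1
  refine ⟨a'.1, ?_, a'.2.2, ?_⟩
  · refine lt_of_le_of_ne a'.2.1 fun h1 => ?_
    have h2 : a' ≤ φ.symm (OrderDual.toDual ⟨j, hx.le, le_rfl⟩) := by
      change a'.1 ≤ _
      rw [← h1]
      exact (φ.symm (OrderDual.toDual ⟨j, hx.le, le_rfl⟩)).2.1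
    have h3 : (OrderDual.toDual c' : (Set.Icc x j)ᵒᵈ) ≤ OrderDual.toDual ⟨j, hx.le, le_rfl⟩ :=
      φ.symm.le_iff_le.1 h2
    have h4 : j ≤ c := OrderDual.toDual_le_toDual.1 h3
    exact absurd hc2 h4.not_gt
  · intro y h1 h2
    have hy : (OrderDual.ofDual (φ ⟨y, h1.le, h2⟩)).1 ≤ c := by
      refine hc3 _ (OrderDual.ofDual (φ ⟨y, h1.le, h2⟩)).2.1 ?_
      refine lt_of_le_of_ne (OrderDual.ofDual (φ ⟨y, h1.le, h2⟩)).2.2 fun h3 => ?_
      have h4 := hbot ⟨y, h1.le, h2⟩ (by
        apply OrderDual.ofDual.injective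
        exact Subtype.ext h3)
      exact h1.ne (congrArg Subtype.val h4).symm
    have h5 : OrderDual.toDual c' ≤ φ ⟨y, h1.le, h2⟩ := by
      rw [← OrderDual.toDual_ofDual (φ ⟨y, h1.le, h2⟩)]
      exact OrderDual.toDual_le_toDual.2 hy
    have h6 : a' ≤ φ.symm (φ ⟨y, h1.le, h2⟩) := φ.symm.le_iff_le.2 h5
    rw [φ.symm_apply_apply] at h6
    exact h6

theorem chain_rel {L : Type} [Lattice L] (h : SD L) {j : L} :
    ∀ n : ℕ, ∀ x : L, x ≤ j → (∀ b c, x ≤ b → x ≤ c → b ⊔ c = j → b = j ∨ c = j) →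
      (Set.Icc x j).Finite → (Set.Icc x j).ncard ≤ n →
      ∀ y z, y ∈ Set.Icc x j → z ∈ Set.Icc x j → y ≤ z ∨ z ≤ y := by
  intro n
  induction n with
  | zero =>
    intro x hx _ hf hn y z hy hz
    have : (Set.Icc x j) = ∅ := by
      rw [← Set.ncard_eq_zero hf]; omega
    rw [this] at hy
    exact absurd hy (Set.notMem_empty y)
  | succ n ih =>
    intro x hx hj hf hn y z hy hz
    rcases hy.1.eq_or_lt with rfl | hxy
    · exact Or.inl hz.1
    rcases hz.1.eq_or_lt with rfl | hxz
    · exact Or.inr hy.1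
    obtain ⟨a, ha1, ha2, ha3⟩ := exists_atom_rel h hf hj (hxy.trans_le hy.2)
    have hsub : Set.Icc a j ⊆ Set.Icc x j := Set.Icc_subset_Icc_left ha1.le
    have hss : Set.Icc a j ⊂ Set.Icc x j := by
      refine ⟨hsub, fun h1 => ?_⟩
      have : x ∈ Set.Icc a j := h1 ⟨le_rfl, hx⟩
      exact absurd ha1 this.1.not_gt
    have hcard : (Set.Icc a j).ncard < (Set.Icc x j).ncard := Set.ncard_lt_ncard hss hf
    exact ih a ha2 (fun b c hb hc => hj b c (ha1.le.trans hb) (ha1.le.trans hc))
      (hf.subset hsub) (by omega) y z ⟨ha3 y hxy hy.2, hy.2⟩ ⟨ha3 z hxz hz.2, hz.2⟩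

theorem chain_rel_dual {L : Type} [Lattice L] (h : SD L) {m t : L} (hmt : m ≤ t)
    (hm : ∀ b c, b ≤ t → c ≤ t → b ⊓ c = m → b = m ∨ c = m) (hf : (Set.Icc m t).Finite)
    {y z : L} (hy : y ∈ Set.Icc m t) (hz : z ∈ Set.Icc m t) : y ≤ z ∨ z ≤ y := by
  have hf' : (Set.Icc (OrderDual.toDual t) (OrderDual.toDual m)).Finite := by
    have : (Set.Icc (OrderDual.toDual t) (OrderDual.toDual m)) =
        OrderDual.ofDual ⁻¹' (Set.Icc m t) := by
      ext u; exact and_comm
    rw [this]
    exact hf.preimage OrderDual.ofDual.injective.injOn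
  have h2 := chain_rel (L := Lᵒᵈ) (sd_dual h) (j := OrderDual.toDual m) _ (OrderDual.toDual t) hmt
    (fun b c hb hc hbc => hm (OrderDual.ofDual b) (OrderDual.ofDual c) hb hc hbc) hf' le_rfl
    (OrderDual.toDual y) (OrderDual.toDual z) ⟨hy.2, hy.1⟩ ⟨hz.2, hz.1⟩
  exact h2.symm

section

variable {L : Type} [DistribLattice L]

theorem exists_bot [Nonempty L] (hF : Finitary L) : ∃ b : L, ∀ u : L, b ≤ u := by
  obtain ⟨x⟩ := (inferInstance : Nonempty L)
  obtain ⟨b, hb⟩ := (hF x).exists_minimal ⟨x, le_rfl⟩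
  refine ⟨b, fun u => ?_⟩
  have h1 : b ⊓ u ≤ b := inf_le_left
  have h2 := hb.2 (show b ⊓ u ∈ Set.Iic x from h1.trans hb.1) h1
  exact h2.trans inf_le_right

/-- separation by join-irreducible elements -/
theorem exists_irr (hF : Finitary L) {s t : L} (h : ¬ s ≤ t) :
    ∃ p : L, SupIrred p ∧ p ≤ s ∧ ¬ p ≤ t := by
  have hfin : {u : L | u ≤ s ∧ ¬ u ≤ t}.Finite := (hF s).subset fun u hu => hu.1
  obtain ⟨p, hp⟩ := hfin.exists_minimal ⟨s, le_rfl, h⟩
  refine ⟨p, ⟨fun hmin => ?_, fun b c hbc => ?_⟩, hp.1.1, hp.1.2⟩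
  · have : p ≤ p ⊓ t := hmin inf_le_left
    exact hp.1.2 (this.trans inf_le_right)
  · by_contra hcon
    rw [not_or] at hcon
    have hb : b ≤ p := hbc ▸ le_sup_left
    have hc : c ≤ p := hbc ▸ le_sup_right
    have hbt : b ≤ t := by
      by_contra h1
      exact hcon.1 (le_antisymm hb (hp.2 ⟨hb.trans hp.1.1, h1⟩ hb))
    have hct : c ≤ t := by
      by_contra h1
      exact hcon.2 (le_antisymm hc (hp.2 ⟨hc.trans hp.1.1, h1⟩ hc))
    exact hp.1.2 (hbc ▸ sup_le hbt hct)

theorem le_iff_irr (hF : Finitary L) {s t : L} :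
    s ≤ t ↔ ∀ p : L, SupIrred p → p ≤ s → p ≤ t := by
  constructor
  · intro h p _ hp; exact hp.trans h
  · intro h
    by_contra h1
    obtain ⟨p, hp, hps, hpt⟩ := exists_irr hF h1
    exact hpt (h p hp hps)

theorem above_comparable' (hF : Finitary L) (h : SD L) {x y z : L} (hx : SupIrred x)
    (hy : SupIrred y) (hz : SupIrred z) (hzx : z ≤ x) (hzy : z ≤ y) : x ≤ y ∨ y ≤ x := by
  classical
  have : Nonempty L := ⟨x⟩
  obtain ⟨b₀, hb₀⟩ := exists_bot hF
  let _ : OrderBot L := { bot := b₀, bot_le := hb₀ }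
  let t : L := x ⊔ y
  have hfin : ∀ x : L, {u : L | u ≤ t ∧ ¬ x ≤ u}.Finite := fun x => (hF t).subset fun u hu => hu.1
  let κ : L → L := fun x => (hfin x).toFinset.sup id
  have hprime : ∀ x : L, SupIrred x → SupPrime x := fun x hx => supPrime_iff_supIrred.2 hx
  have hle : ∀ x u : L, u ≤ t → ¬ x ≤ u → u ≤ κ x := fun x u hu1 hu2 =>
    Finset.le_sup (f := id) (by simpa using ⟨hu1, hu2⟩)
  have hκt : ∀ x : L, κ x ≤ t := by
    intro x
    refine Finset.sup_le fun u hu => ?_
    have : u ≤ t ∧ ¬ x ≤ u := by simpa using hu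
    exact this.1
  have hκ : ∀ x : L, SupIrred x → ¬ x ≤ κ x := by
    intro x hx h1
    obtain ⟨u, hu, hu2⟩ := (hprime x hx).le_finset_sup.1 h1
    have : u ≤ t ∧ ¬ x ≤ u := by simpa using hu
    exact this.2 hu2
  have hzx' : κ z ≤ κ x := hle x _ (hκt z) fun h1 => hκ z hz (hzx.trans h1)
  have hzy' : κ z ≤ κ y := hle y _ (hκt z) fun h1 => hκ z hz (hzy.trans h1)
  have key : ∀ x y : L, x ≤ t → y ≤ t → SupIrred x → SupIrred y → κ x ≤ κ y → x ≤ y := by
    intro x y hxt hyt hx hy hxy
    by_contra h1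
    exact hκ y hy ((hle x y hyt h1).trans hxy)
  have hirr : ∀ b c, b ≤ t → c ≤ t → b ⊓ c = κ z → b = κ z ∨ c = κ z := by
    intro a b ha' hb' hab
    by_contra hcon
    rw [not_or] at hcon
    have ha : z ≤ a := by
      by_contra h1
      exact hcon.1 (le_antisymm (hle z a ha' h1) (hab ▸ inf_le_left))
    have hb : z ≤ b := by
      by_contra h1
      exact hcon.2 (le_antisymm (hle z b hb' h1) (hab ▸ inf_le_right))
    exact hκ z hz (hab ▸ le_inf ha hb)
  rcases chain_rel_dual h (hκt z) hirr ((hF t).subset Set.Icc_subset_Iic_self)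
    ⟨hzx', hκt x⟩ ⟨hzy', hκt y⟩ with h1 | h1
  · exact Or.inl (key x y le_sup_left le_sup_right hx hy h1)
  · exact Or.inr (key y x le_sup_right le_sup_left hy hx h1)

/-- comparability of join-irreducible elements -/
def comp' (hF : Finitary L) (h : SD L) : Setoid {a : L // SupIrred a} where
  r x y := x ≤ y ∨ y ≤ x
  iseqv :=
    { refl := fun x => Or.inl le_rfl
      symm := fun h => h.symm
      trans := by
        intro x y z hxy hyz
        rcases hxy with h1 | h1 <;> rcases hyz with h2 | h2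
        · exact Or.inl (h1.trans h2)
        · exact iic_chain hF h y.2 h1 h2
        · exact above_comparable' hF h x.2 z.2 y.2 h1 h2
        · exact Or.inr (h2.trans h1) }

theorem product_of_chains' [Nonempty L] (hF : Finitary L) (hC : FiniteCovers L) (h : SD L) :
    ∃ (ι : Type) (_ : Finite ι) (K : ι → Type) (_ : ∀ i, LinearOrder (K i)),
      (∀ i, ∀ x : K i, (Set.Iic x).Finite) ∧ Nonempty (L ≃o ∀ i, K i) := by
  classical
  obtain ⟨b₀, hb₀⟩ := exists_bot hF
  let _ : OrderBot L := { bot := b₀, bot_le := hb₀ }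
  let P : Type := {a : L // SupIrred a}
  let S : Setoid P := comp' hF h
  have hprime : ∀ x : L, SupIrred x → SupPrime x := fun x hx => supPrime_iff_supIrred.2 hx
  -- finitely many classes
  have hcls : Finite (Quotient S) := by
    have hA : Finite {y : L // (⊥ : L) ⋖ y} := hC ⊥
    have hirr : ∀ y : {y : L // (⊥ : L) ⋖ y}, SupIrred y.1 := by
      intro y
      refine ⟨fun hmin => ?_, fun b c hbc => ?_⟩
      · exact y.2.1.not_ge (hmin bot_le)
      · by_contra hcon
        rw [not_or] at hcon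
        have hb : b < y.1 := lt_of_le_of_ne (hbc ▸ le_sup_left) hcon.1
        have hc : c < y.1 := lt_of_le_of_ne (hbc ▸ le_sup_right) hcon.2
        have hb0 : b = ⊥ := by
          by_contra h1
          exact y.2.2 (bot_lt_iff_ne_bot.2 h1) hb
        rw [hb0, bot_sup_eq] at hbc
        exact hcon.2 hbc
    refine Finite.of_surjective (fun y : {y : L // (⊥ : L) ⋖ y} =>
      Quotient.mk S (⟨y.1, hirr y⟩ : P)) ?_
    intro c
    induction c using Quotient.inductionOn with
    | h p =>
      have hfin : {u : L | u ≤ p.1 ∧ u ≠ ⊥}.Finite := (hF p.1).subset fun u hu => hu.1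
      have hp0 : p.1 ≠ ⊥ := fun h0 => p.2.1 (h0 ▸ isMin_bot)
      obtain ⟨a, ha⟩ := hfin.exists_minimal ⟨p.1, le_rfl, hp0⟩
      refine ⟨⟨a, bot_lt_iff_ne_bot.2 ha.1.2, fun c hc1 hc2 => ?_⟩, ?_⟩
      · have := ha.2 (show c ∈ {u : L | u ≤ p.1 ∧ u ≠ ⊥} from
          ⟨hc2.le.trans ha.1.1, (bot_lt_iff_ne_bot.1 hc1)⟩) hc2.le
        exact hc2.not_ge this
      · exact Quotient.sound (Or.inl ha.1.1)
  have : Fintype (Quotient S) := Fintype.ofFinite _
  let K : Quotient S → Type := fun c => {t : L // ∀ p : P, p.1 ≤ t → Quotient.mk S p = c}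
  have htot : ∀ c, ∀ a b : K c, a ≤ b ∨ b ≤ a := by
    intro c a b
    by_contra hcon
    rw [not_or] at hcon
    obtain ⟨h1, h2⟩ := hcon
    obtain ⟨p, hp, hp1, hp2⟩ := exists_irr hF (s := a.1) (t := b.1) h1
    obtain ⟨q, hq, hq1, hq2⟩ := exists_irr hF (s := b.1) (t := a.1) h2
    have h3 : Quotient.mk S (⟨p, hp⟩ : P) = Quotient.mk S (⟨q, hq⟩ : P) :=
      (a.2 ⟨p, hp⟩ hp1).trans (b.2 ⟨q, hq⟩ hq1).symm
    have h4 : (⟨p, hp⟩ : P) ≤ ⟨q, hq⟩ ∨ (⟨q, hq⟩ : P) ≤ ⟨p, hp⟩ := Quotient.exact h3
    rcases h4 with h5 | h5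
    · exact hp2 (le_trans (show p ≤ q from h5) hq1)
    · exact hq2 (le_trans (show q ≤ p from h5) hp1)
  let LO : ∀ c, LinearOrder (K c) := fun c =>
    { (inferInstance : PartialOrder (K c)) with
      le_total := htot c
      toDecidableLE := Classical.decRel _ }
  have hTf : ∀ (t : L) (c : Quotient S),
      {u : L | ∃ p : P, p.1 = u ∧ p.1 ≤ t ∧ Quotient.mk S p = c}.Finite := fun t c =>
    (hF t).subset (by rintro u ⟨p, rfl, hp, _⟩; exact hp)
  let cmp : L → Quotient S → L := fun t c => (hTf t c).toFinset.sup id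
  have hcmp : ∀ t c (p : P), p.1 ≤ cmp t c ↔ p.1 ≤ t ∧ Quotient.mk S p = c := by
    intro t c p
    constructor
    · intro h1
      obtain ⟨u, hu, hu2⟩ := (hprime p.1 p.2).le_finset_sup.1 h1
      have hu' : ∃ q : P, q.1 = u ∧ q.1 ≤ t ∧ Quotient.mk S q = c := by
        simpa using hu
      obtain ⟨q, rfl, hq1, hq2⟩ := hu'
      refine ⟨le_trans (show p.1 ≤ q.1 from hu2) hq1, ?_⟩
      rw [← hq2]
      exact Quotient.sound (Or.inl hu2)
    · rintro ⟨h1, h2⟩
      exact Finset.le_sup (f := id) (by simpa using ⟨p, rfl, h1, h2⟩)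
  refine ⟨Quotient S, inferInstance, K, LO, fun c x => ?_, ⟨?_⟩⟩
  · exact ((hF x.1).preimage (f := fun y : K c => y.1) Subtype.val_injective.injOn).subset
      fun y hy => hy
  · let e : L ↪o ∀ c, K c := OrderEmbedding.ofMapLEIff
      (fun t c => (⟨cmp t c, fun p hp => ((hcmp t c p).1 hp).2⟩ : K c)) (by
        intro s t
        constructor
        · intro h1
          rw [le_iff_irr hF]
          intro p hp hps
          have h2 : cmp s (Quotient.mk S ⟨p, hp⟩) ≤ cmp t (Quotient.mk S ⟨p, hp⟩) :=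
            h1 (Quotient.mk S ⟨p, hp⟩)
          exact ((hcmp t _ ⟨p, hp⟩).1 (((hcmp s _ ⟨p, hp⟩).2 ⟨hps, rfl⟩).trans h2)).1
        · intro h1 c
          change cmp s c ≤ cmp t c
          rw [le_iff_irr hF]
          intro p hp hps
          have h2 := (hcmp s c ⟨p, hp⟩).1 hps
          exact (hcmp t c ⟨p, hp⟩).2 ⟨h2.1.trans h1, h2.2⟩)
    refine RelIso.ofSurjective e ?_
    intro f
    refine ⟨Finset.univ.sup fun c => (f c).1, ?_⟩
    funext c
    apply Subtype.ext
    change cmp _ c = (f c).1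
    apply le_antisymm
    · rw [le_iff_irr hF]
      intro p hp hps
      obtain ⟨h2, h3⟩ := (hcmp _ c ⟨p, hp⟩).1 hps
      obtain ⟨c', _, hc'⟩ := (hprime p hp).le_finset_sup.1 h2
      have h4 := (f c').2 ⟨p, hp⟩ hc'
      rw [h3] at h4
      subst h4
      exact hc'
    · rw [le_iff_irr hF]
      intro p hp hps
      refine (hcmp _ c ⟨p, hp⟩).2 ⟨hps.trans (Finset.le_sup (f := fun c => (f c).1)
        (Finset.mem_univ c)), (f c).2 ⟨p, hp⟩ hps⟩

end

theorem sd_pi' {ι : Type} (K : ι → Type) [∀ i, LinearOrder (K i)]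
    (hK : ∀ i, ∀ x : K i, (Set.Iic x).Finite) : SD (∀ i, K i) := by
  intro x y hxy
  have hfin : ∀ i, Finite (Set.Icc (x i) (y i)) := fun i =>
    ((hK i (y i)).subset Set.Icc_subset_Iic_self)
  let e : ∀ i, Set.Icc (x i) (y i) ≃o (Set.Icc (x i) (y i))ᵒᵈ := fun i =>
    (chain_self_dual _).some
  let f : Set.Icc x y ≃o ∀ i, Set.Icc (x i) (y i) :=
    { toFun := fun t i => ⟨t.1 i, t.2.1 i, t.2.2 i⟩
      invFun := fun t => ⟨fun i => (t i).1, fun i => (t i).2.1, fun i => (t i).2.2⟩
      left_inv := fun t => rfl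
      right_inv := fun t => rfl
      map_rel_iff' := by
        intro a b
        constructor
        · intro h i; exact h i
        · intro h i; exact h i }
  let g : (∀ i, Set.Icc (x i) (y i)) ≃o (∀ i, Set.Icc (x i) (y i))ᵒᵈ :=
    { toFun := fun t => OrderDual.toDual fun i => OrderDual.ofDual (e i (t i))
      invFun := fun t => fun i => (e i).symm (OrderDual.toDual ((OrderDual.ofDual t) i))
      left_inv := fun t => by funext i; simp
      right_inv := fun t => by
        apply OrderDual.ofDual.injective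
        funext i; simp
      map_rel_iff' := by
        intro a b
        constructor
        · intro h i
          exact (e i).le_iff_le.1 (h i)
        · intro h i
          exact (e i).le_iff_le.2 (h i) }
  exact ⟨f.trans (g.trans f.symm.dual)⟩

/-- **Lattices all of whose intervals are self-dual.** Let `L` be a lattice with property (SD).
* If `L` is finitary and `j` is join-irreducible, then the elements below `j` form a chain.
* If `L` is finite, then moreover the elements above a meet-irreducible element form a chain (so a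
  finite modular lattice with (SD) is semi-primary in the sense of Jonsson and Monk).
* A finite, nonempty, distributive lattice has (SD) if and only if it is a product of finitely many
  finite chains.
* A finitary, nonempty, distributive lattice with finite covers has (SD) if and only if it is a
  product of finitely many chains with finite initial segments. -/
theorem result :
    (∀ (L : Type) [Lattice L], Finitary L → SD L → ∀ j : L, SupIrred j →
      ∀ y z : L, y ≤ j → z ≤ j → y ≤ z ∨ z ≤ y) ∧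
    (∀ (L : Type) [Lattice L] [Finite L], SD L → ∀ m : L, InfIrred m →
      ∀ y z : L, m ≤ y → m ≤ z → y ≤ z ∨ z ≤ y) ∧
    (∀ (L : Type) [DistribLattice L] [Finite L] [Nonempty L], SD L ↔
      ∃ (ι : Type) (_ : Finite ι) (K : ι → Type) (_ : ∀ i, LinearOrder (K i)),
        (∀ i, Finite (K i)) ∧ Nonempty (L ≃o ∀ i, K i)) ∧
    (∀ (L : Type) [DistribLattice L] [Nonempty L], Finitary L → FiniteCovers L → (SD L ↔
      ∃ (ι : Type) (_ : Finite ι) (K : ι → Type) (_ : ∀ i, LinearOrder (K i)),
        (∀ i, ∀ x : K i, (Set.Iic x).Finite) ∧ Nonempty (L ≃o ∀ i, K i))) :=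
  ⟨fun _ _ hL h _ hj _ _ hy hz => iic_chain hL h hj hy hz,
    fun _ _ _ h _ hm _ _ hy hz => ici_chain h hm hy hz,
    fun _ _ _ _ => ⟨fun h => product_of_chains h, fun ⟨_, _, K, _, hK, ⟨e⟩⟩ =>
      have := hK
      sd_of_iso e (sd_pi K)⟩,
    fun _ _ _ hF hC => ⟨fun h => product_of_chains' hF hC h, fun ⟨_, _, K, _, hK, ⟨e⟩⟩ =>
      sd_of_iso e (sd_pi' K hK)⟩⟩

end Pool.Agent.Results.MP_34a2f2_co.SelfDualIntervals
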